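import Mathlib

/-!
# Sets with small pairwise intersections, and a deletion lemma
-/

namespace Pool.Agent.H29.Areas

open Finset

variable {V : Type*} [Fintype V] [DecidableEq V]

/-- Cauchy–Schwarz for a family of subsets of a finite set. -/
lemma cs {ι : Type*} (J : Finset ι) (S : ι → Finset V) :
    (∑ j ∈ J, ((S j).card : ℝ)) ^ 2 ≤
      (Fintype.card V : ℝ) * ∑ j ∈ J, ∑ j' ∈ J, ((S j ∩ S j').card : ℝ) := by
  have h1 : (∑ j ∈ J, ((S j).card : ℝ)) = ∑ v : V, ∑ j ∈ J, (if v ∈ S j then (1:ℝ) else 0) := by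
    rw [sum_comm]
    refine sum_congr rfl fun j _ => ?_
    rw [Finset.sum_boole]
    simp
  have h2 : ∀ v : V, (∑ j ∈ J, (if v ∈ S j then (1:ℝ) else 0)) ^ 2 =
      ∑ j ∈ J, ∑ j' ∈ J, (if v ∈ S j ∩ S j' then (1:ℝ) else 0) := by
    intro v
    rw [sq, sum_mul_sum]
    refine sum_congr rfl fun j _ => sum_congr rfl fun j' _ => ?_
    by_cases h : v ∈ S j <;> by_cases h' : v ∈ S j' <;> simp [h, h']
  have h3 : ∑ j ∈ J, ∑ j' ∈ J, ((S j ∩ S j').card : ℝ) =
      ∑ v : V, (∑ j ∈ J, (if v ∈ S j then (1:ℝ) else 0)) ^ 2 := by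
    have : ∀ j j', ((S j ∩ S j').card : ℝ) =
        ∑ v : V, (if v ∈ S j ∩ S j' then (1:ℝ) else 0) := by
      intro j j'
      rw [Finset.sum_boole]
      congr 2
      ext v
      simp
    simp_rw [this, h2]
    calc ∑ j ∈ J, ∑ j' ∈ J, ∑ v : V, (if v ∈ S j ∩ S j' then (1:ℝ) else 0)
        = ∑ j ∈ J, ∑ v : V, ∑ j' ∈ J, (if v ∈ S j ∩ S j' then (1:ℝ) else 0) :=
          sum_congr rfl fun j _ => sum_comm
      _ = ∑ v : V, ∑ j ∈ J, ∑ j' ∈ J, (if v ∈ S j ∩ S j' then (1:ℝ) else 0) := sum_comm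
  rw [h1, h3]
  have := sq_sum_le_card_mul_sum_sq (s := (univ : Finset V))
    (f := fun v => ∑ j ∈ J, (if v ∈ S j then (1:ℝ) else 0))
  simpa using this

/-- If two different sets of the family meet in at most `8` points. -/
lemma cs8 {ι : Type*} [DecidableEq ι] (J : Finset ι) (S : ι → Finset V)
    (h : ∀ j ∈ J, ∀ j' ∈ J, j ≠ j' → (S j ∩ S j').card ≤ 8) :
    (∑ j ∈ J, ((S j).card : ℝ)) ^ 2 ≤
      (Fintype.card V : ℝ) * (∑ j ∈ J, ((S j).card : ℝ) + 8 * (J.card : ℝ) ^ 2) := by
  refine (cs J S).trans ?_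
  refine mul_le_mul_of_nonneg_left ?_ (by positivity)
  have h1 : ∀ j ∈ J, ∑ j' ∈ J, ((S j ∩ S j').card : ℝ) ≤ (S j).card + 8 * J.card := by
    intro j hj
    have : ∀ j' ∈ J, ((S j ∩ S j').card : ℝ) ≤ (if j' = j then ((S j).card : ℝ) else 0) + 8 := by
      intro j' hj'
      split_ifs with hjj
      · subst hjj
        rw [inter_self]
        linarith
      · have := h j hj j' hj' (Ne.symm hjj)
        have h8 : ((S j ∩ S j').card : ℝ) ≤ 8 := by exact_mod_cast this
        linarith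
    refine (sum_le_sum this).trans ?_
    rw [sum_add_distrib, sum_ite_eq' J j, if_pos hj]
    simp
    linarith
  refine (sum_le_sum h1).trans ?_
  rw [sum_add_distrib]
  simp
  nlinarith

/-- Sets with small pairwise intersections: the sum of the squares of the sizes. -/
lemma rich {ι : Type*} [DecidableEq ι] (J : Finset ι) (S : ι → Finset V)
    (h : ∀ j ∈ J, ∀ j' ∈ J, j ≠ j' → (S j ∩ S j').card ≤ 8)
    (htot : ∑ j ∈ J, ((S j).card : ℝ) ≤ (Fintype.card V : ℝ) ^ 2) :
    ∑ j ∈ J, ((S j).card : ℝ) ^ 2 ≤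
      6 * (Fintype.card V : ℝ) ^ 2 * Real.sqrt (Fintype.card V) := by
  classical
  set N : ℝ := (Fintype.card V : ℝ) with hN
  rcases Nat.eq_zero_or_pos (Fintype.card V) with h0 | hpos
  · have hN0 : N = 0 := by rw [hN, h0]; simp
    have hz : ∀ j ∈ J, ((S j).card : ℝ) ^ 2 = 0 := by
      intro j _
      have : (S j).card ≤ Fintype.card V := card_le_univ _
      have : (S j).card = 0 := by omega
      rw [this]; simp
    rw [sum_eq_zero hz]
    positivity
  have hN1 : 1 ≤ N := by rw [hN]; exact_mod_cast hpos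
  have hs : 1 ≤ Real.sqrt N := by
    rw [show (1:ℝ) = Real.sqrt 1 by simp]
    exact Real.sqrt_le_sqrt hN1
  have hss : Real.sqrt N * Real.sqrt N = N := Real.mul_self_sqrt (by linarith)
  set K := J.filter (fun j => 4 * Real.sqrt N < ((S j).card : ℝ)) with hK
  rw [← sum_filter_add_sum_filter_not J (fun j => 4 * Real.sqrt N < ((S j).card : ℝ))]
  rw [← hK]
  have hcard : ∀ j, ((S j).card : ℝ) ≤ N := by
    intro j
    rw [hN]
    exact_mod_cast card_le_univ _
  set A := ∑ j ∈ K, ((S j).card : ℝ) with hA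
  have hA0 : 0 ≤ A := sum_nonneg fun j _ => by positivity
  have hm : 4 * Real.sqrt N * K.card ≤ A := by
    rw [hA]
    have : ∑ j ∈ K, 4 * Real.sqrt N ≤ ∑ j ∈ K, ((S j).card : ℝ) := by
      refine sum_le_sum fun j hj => ?_
      rw [hK, mem_filter] at hj
      exact hj.2.le
    rw [sum_const, nsmul_eq_mul] at this
    linarith
  have hcsK := cs8 K S (fun j hj j' hj' hjj =>
    h j (mem_of_mem_filter j hj) j' (mem_of_mem_filter j' hj') hjj)
  rw [← hA, ← hN] at hcsK
  have hA2 : A ≤ 2 * N := by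
    have h1 : 16 * N * (K.card : ℝ) ^ 2 ≤ A ^ 2 := by
      have : (4 * Real.sqrt N * K.card) ^ 2 ≤ A ^ 2 := by
        apply pow_le_pow_left₀ (by positivity) hm
      nlinarith
    by_contra hcon
    push Not at hcon
    nlinarith
  have hbig : ∑ j ∈ K, ((S j).card : ℝ) ^ 2 ≤ 2 * N ^ 2 := by
    have : ∑ j ∈ K, ((S j).card : ℝ) ^ 2 ≤ ∑ j ∈ K, N * ((S j).card : ℝ) := by
      refine sum_le_sum fun j _ => ?_
      have := hcard j
      nlinarith [Nat.cast_nonneg (α := ℝ) (S j).card]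
    rw [← mul_sum, ← hA] at this
    nlinarith
  have hsmall : ∑ j ∈ J.filter (fun j => ¬ 4 * Real.sqrt N < ((S j).card : ℝ)),
      ((S j).card : ℝ) ^ 2 ≤ 4 * Real.sqrt N * N ^ 2 := by
    have h1 : ∑ j ∈ J.filter (fun j => ¬ 4 * Real.sqrt N < ((S j).card : ℝ)),
      ((S j).card : ℝ) ^ 2 ≤ ∑ j ∈ J.filter (fun j => ¬ 4 * Real.sqrt N < ((S j).card : ℝ)),
        4 * Real.sqrt N * ((S j).card : ℝ) := by
      refine sum_le_sum fun j hj => ?_
      rw [mem_filter, not_lt] at hj
      nlinarith [Nat.cast_nonneg (α := ℝ) (S j).card, hj.2]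
    refine h1.trans ?_
    rw [← mul_sum]
    refine mul_le_mul_of_nonneg_left ?_ (by positivity)
    refine le_trans ?_ htot
    exact sum_le_sum_of_subset_of_nonneg (filter_subset _ _) (fun _ _ _ => by positivity)
  nlinarith [sq_nonneg N]

/-- The deletion method. -/
lemma deletion (M : ℕ) [NeZero M] (B : Finset (Finset V)) (hB : ∀ A ∈ B, A.Nonempty)
    (h : ∑ A ∈ B, (1 / (M : ℝ)) ^ A.card ≤ (Fintype.card V : ℝ) / (2 * M)) :
    ∃ S : Finset V, (Fintype.card V : ℝ) / (2 * M) ≤ S.card ∧ ∀ A ∈ B, ¬ A ⊆ S := by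
  classical
  have hM : (0:ℝ) < M := by
    have := NeZero.ne M
    positivity
  -- the number of functions vanishing on a set
  have hcount : ∀ A : Finset V, ((univ.filter (fun f : V → Fin M => ∀ v ∈ A, f v = 0)).card : ℝ)
      = (M : ℝ) ^ (Fintype.card V) * (1 / (M : ℝ)) ^ A.card := by
    intro A
    have h1 : univ.filter (fun f : V → Fin M => ∀ v ∈ A, f v = 0) =
        Fintype.piFinset (fun v => if v ∈ A then ({0} : Finset (Fin M)) else univ) := by
      ext f
      simp only [mem_filter, mem_univ, true_and, Fintype.mem_piFinset]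
      refine forall_congr' fun v => ?_
      by_cases hv : v ∈ A <;> simp [hv]
    rw [h1, Fintype.card_piFinset]
    push_cast
    have h2 : ∀ v : V, (((if v ∈ A then ({0} : Finset (Fin M)) else univ).card : ℕ) : ℝ) =
        (M : ℝ) * (if v ∈ A then (1 / (M : ℝ)) else 1) := by
      intro v
      by_cases hv : v ∈ A
      · simp [hv, hM.ne']
      · simp [hv]
    rw [prod_congr rfl fun v _ => h2 v, prod_mul_distrib]
    congr 1
    · simp
    · rw [Finset.prod_ite]
      simp
  set R : (V → Fin M) → Finset V := fun f => univ.filter (fun v => f v = 0) with hR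
  have hsub : ∀ (A : Finset V) (f : V → Fin M), A ⊆ R f ↔ ∀ v ∈ A, f v = 0 := by
    intro A f
    simp [hR, subset_iff]
  have hsumR : ∑ f : V → Fin M, ((R f).card : ℝ) =
      (M : ℝ) ^ (Fintype.card V) * ((Fintype.card V : ℝ) / M) := by
    have h1 : ∀ f : V → Fin M, ((R f).card : ℝ) = ∑ v : V, if f v = 0 then (1:ℝ) else 0 := by
      intro f
      rw [Finset.sum_boole]
    simp_rw [h1]
    rw [sum_comm]
    have h2 : ∀ v : V, ∑ f : V → Fin M, (if f v = 0 then (1:ℝ) else 0) =
        (M : ℝ) ^ (Fintype.card V) * (1 / (M : ℝ)) := by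
      intro v
      have := hcount {v}
      simp only [mem_singleton, forall_eq, card_singleton, pow_one] at this
      rw [← this, Finset.sum_boole]
    rw [sum_congr rfl fun v _ => h2 v]
    simp
    ring
  have hsumB : ∑ f : V → Fin M, (((B.filter (fun A => A ⊆ R f)).card : ℕ) : ℝ) =
      (M : ℝ) ^ (Fintype.card V) * ∑ A ∈ B, (1 / (M : ℝ)) ^ A.card := by
    have h1 : ∀ f : V → Fin M, (((B.filter (fun A => A ⊆ R f)).card : ℕ) : ℝ) =
        ∑ A ∈ B, if (∀ v ∈ A, f v = 0) then (1:ℝ) else 0 := by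
      intro f
      rw [Finset.sum_boole]
      simp_rw [hsub]
    simp_rw [h1]
    rw [sum_comm, mul_sum]
    refine sum_congr rfl fun A _ => ?_
    rw [← hcount A, Finset.sum_boole]
  obtain ⟨f, hf⟩ : ∃ f : V → Fin M, (Fintype.card V : ℝ) / (2 * M) ≤
      ((R f).card : ℝ) - ((B.filter (fun A => A ⊆ R f)).card : ℕ) := by
    by_contra hcon
    push Not at hcon
    have h1 : ∑ f : V → Fin M, (((R f).card : ℝ) - ((B.filter (fun A => A ⊆ R f)).card : ℕ)) <
        ∑ f : V → Fin M, (Fintype.card V : ℝ) / (2 * M) :=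
      sum_lt_sum_of_nonempty univ_nonempty fun f _ => hcon f
    rw [sum_sub_distrib, hsumR, hsumB, sum_const, nsmul_eq_mul, ← mul_sub] at h1
    have hc : ((univ : Finset (V → Fin M)).card : ℝ) = (M : ℝ) ^ (Fintype.card V) := by
      simp
    rw [hc] at h1
    have hp : (0:ℝ) < (M : ℝ) ^ (Fintype.card V) := by positivity
    have h2 := lt_of_mul_lt_mul_left h1 hp.le
    have h3 : (Fintype.card V : ℝ) / M = (Fintype.card V : ℝ) / (2 * M) +
        (Fintype.card V : ℝ) / (2 * M) := by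
      field_simp
      ring
    linarith
  choose g hg using hB
  set D : Finset V := (B.filter (fun A => A ⊆ R f)).attach.image
    (fun A => g A.1 (mem_of_mem_filter _ A.2)) with hD
  have hDc : D.card ≤ (B.filter (fun A => A ⊆ R f)).card := by
    refine card_image_le.trans ?_
    rw [card_attach]
  refine ⟨R f \ D, ?_, ?_⟩
  · refine hf.trans ?_
    have h1 : (R f).card ≤ (R f \ D).card + D.card := by
      have := Finset.card_sdiff_add_card (R f) D
      have h2 := card_le_card (subset_union_left (s₁ := R f) (s₂ := D))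
      omega
    have h3 : ((R f).card : ℝ) ≤ ((R f \ D).card : ℝ) +
        ((B.filter (fun A => A ⊆ R f)).card : ℝ) := by
      exact_mod_cast h1.trans (by omega)
    linarith
  · intro A hA hAs
    have hAR : A ⊆ R f := hAs.trans sdiff_subset
    have hgA := hAs (hg A hA)
    rw [mem_sdiff] at hgA
    refine hgA.2 ?_
    rw [hD, mem_image]
    exact ⟨⟨A, mem_filter.2 ⟨hA, hAR⟩⟩, mem_attach _ _, rfl⟩

end Pool.Agent.H29.Areas
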