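import Pool.Agent.H29.Areas.Comb

/-!
# Counting coincidences of a symmetric function of three variables
-/

namespace Pool.Agent.H29.Areas

open Finset

variable {V : Type*} [Fintype V] [DecidableEq V]

/-- A symmetric function of three variables with small codegrees. -/
structure Ar (ar : V → V → V → ℝ) : Prop where
  s12 : ∀ a b c, ar a b c = ar b a c
  s23 : ∀ a b c, ar a b c = ar a c b
  cod : ∀ a b b' t t', a ≠ b → a ≠ b' → (b ≠ b' ∨ t ≠ t') →
    (univ.filter fun c => c ≠ a ∧ c ≠ b ∧ c ≠ b' ∧ ar a b c = t ∧ ar a b' c = t').card ≤ 8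

/-- The third elements with a given value. -/
noncomputable def Sf (ar : V → V → V → ℝ) (a b : V) (t : ℝ) : Finset V :=
  univ.filter fun c => a ≠ b ∧ c ≠ a ∧ c ≠ b ∧ ar a b c = t

/-- All the values. -/
noncomputable def vals (ar : V → V → V → ℝ) : Finset ℝ :=
  (univ : Finset (V × V × V)).image fun x => ar x.1 x.2.1 x.2.2

lemma mem_Sf {ar : V → V → V → ℝ} {a b c : V} {t : ℝ} :
    c ∈ Sf ar a b t ↔ a ≠ b ∧ c ≠ a ∧ c ≠ b ∧ ar a b c = t := by
  simp [Sf]

lemma Ar.inter {ar : V → V → V → ℝ} (h : Ar ar) (a : V) {p p' : V × ℝ} (hp : p ≠ p') :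
    (Sf ar a p.1 p.2 ∩ Sf ar a p'.1 p'.2).card ≤ 8 := by
  by_cases ha : a ≠ p.1 ∧ a ≠ p'.1
  · refine le_trans (card_le_card ?_) (h.cod a p.1 p'.1 p.2 p'.2 ha.1 ha.2 ?_)
    · intro c hc
      rw [mem_inter, mem_Sf, mem_Sf] at hc
      simp only [mem_filter, mem_univ, true_and]
      tauto
    · by_contra hcon
      push Not at hcon
      exact hp (Prod.ext hcon.1 hcon.2)
  · have : Sf ar a p.1 p.2 ∩ Sf ar a p'.1 p'.2 = ∅ := by
      ext c
      rw [mem_inter, mem_Sf, mem_Sf]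
      simp only [notMem_empty, iff_false]
      tauto
    rw [this]; simp

lemma Ar.sum_le {ar : V → V → V → ℝ} (h : Ar ar) (a : V) (t : ℝ) :
    ∑ b : V, ((Sf ar a b t).card : ℝ) ≤
      3 * (Fintype.card V : ℝ) * Real.sqrt (Fintype.card V) := by
  have hcs := cs8 (univ : Finset V) (fun b => Sf ar a b t) (fun b _ b' _ hb =>
    h.inter a (p := (b, t)) (p' := (b', t)) (by simpa using hb))
  set N : ℝ := (Fintype.card V : ℝ) with hN
  set A := ∑ b : V, ((Sf ar a b t).card : ℝ) with hA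
  have hN0 : 0 ≤ N := by positivity
  have hss : Real.sqrt N * Real.sqrt N = N := Real.mul_self_sqrt hN0
  have hA2 : A ≤ N ^ 2 := by
    rw [hA]
    refine (sum_le_sum (g := fun _ => N) fun b _ => ?_).trans ?_
    · rw [hN]; exact_mod_cast card_le_univ _
    · simp [← hN]; nlinarith
  rw [card_univ, ← hN] at hcs
  have h9 : A ^ 2 ≤ 9 * N ^ 3 := by nlinarith
  refine abs_le_of_sq_le_sq' ?_ (by positivity) |>.2
  have : (3 * N * Real.sqrt N) ^ 2 = 9 * N ^ 2 * (Real.sqrt N * Real.sqrt N) := by ring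
  rw [this, hss]
  nlinarith

lemma Ar.sum_sq_le {ar : V → V → V → ℝ} (h : Ar ar) (a : V) :
    ∑ b : V, ∑ t ∈ vals ar, ((Sf ar a b t).card : ℝ) ^ 2 ≤
      6 * (Fintype.card V : ℝ) ^ 2 * Real.sqrt (Fintype.card V) := by
  have h1 := rich ((univ : Finset V) ×ˢ vals ar) (fun p => Sf ar a p.1 p.2)
    (fun p _ p' _ hp => h.inter a hp) ?_
  · rwa [sum_product] at h1
  · rw [sum_product]
    have h2 : ∀ b : V, ∑ t ∈ vals ar, ((Sf ar a b t).card : ℝ) ≤ Fintype.card V := by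
      intro b
      rw [← Nat.cast_sum, ← card_biUnion]
      · exact_mod_cast card_le_univ _
      · intro t _ t' _ htt
        rw [Function.onFun, disjoint_left]
        intro c hc hc'
        rw [mem_Sf] at hc hc'
        exact htt (hc.2.2.2.symm.trans hc'.2.2.2)
    refine (sum_le_sum fun b _ => h2 b).trans ?_
    simp
    nlinarith

lemma Ar.T4 {ar : V → V → V → ℝ} (h : Ar ar) :
    (((univ : Finset (V × V × V × V)).filter fun x =>
      x.2.2.1 ∈ Sf ar x.1 x.2.1 (ar x.1 x.2.1 x.2.2.1) ∧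
      x.2.2.2 ∈ Sf ar x.1 x.2.1 (ar x.1 x.2.1 x.2.2.1)).card : ℝ) ≤
      6 * (Fintype.card V : ℝ) ^ 3 * Real.sqrt (Fintype.card V) := by
  rw [← Finset.sum_boole]
  simp_rw [Fintype.sum_prod_type]
  have h1 : ∀ a b : V, ∑ c : V, ∑ d : V,
      (if c ∈ Sf ar a b (ar a b c) ∧ d ∈ Sf ar a b (ar a b c) then (1:ℝ) else 0) ≤
      ∑ t ∈ vals ar, ((Sf ar a b t).card : ℝ) ^ 2 := by
    intro a b
    have h2 : ∀ c : V, ∑ d : V,
      (if c ∈ Sf ar a b (ar a b c) ∧ d ∈ Sf ar a b (ar a b c) then (1:ℝ) else 0) =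
      (if c ∈ Sf ar a b (ar a b c) then ((Sf ar a b (ar a b c)).card : ℝ) else 0) := by
      intro c
      by_cases hc : c ∈ Sf ar a b (ar a b c)
      · simp [hc]
      · simp [hc]
    rw [sum_congr rfl fun c _ => h2 c]
    rw [← sum_fiberwise_of_maps_to (s := univ) (t := vals ar) (g := fun c => ar a b c)
      (fun c _ => by rw [vals]; exact mem_image.2 ⟨(a, b, c), mem_univ _, rfl⟩)]
    refine sum_le_sum fun t _ => ?_
    have h3 : ∑ i ∈ univ.filter (fun i => ar a b i = t),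
        (if i ∈ Sf ar a b (ar a b i) then ((Sf ar a b (ar a b i)).card : ℝ) else 0) =
        ∑ i ∈ univ.filter (fun i => ar a b i = t),
          (if i ∈ Sf ar a b t then ((Sf ar a b t).card : ℝ) else 0) := by
      refine sum_congr rfl fun i hi => ?_
      rw [mem_filter] at hi
      rw [hi.2]
    rw [h3, ← sum_filter, sum_const, nsmul_eq_mul, sq]
    refine mul_le_mul_of_nonneg_right ?_ (by positivity)
    have : (filter (fun i => i ∈ Sf ar a b t) (univ.filter (fun i => ar a b i = t))) ⊆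
        Sf ar a b t := fun i hi => (mem_filter.1 hi).2
    exact_mod_cast card_le_card this
  calc ∑ a : V, ∑ b : V, ∑ c : V, ∑ d : V,
      (if c ∈ Sf ar a b (ar a b c) ∧ d ∈ Sf ar a b (ar a b c) then (1:ℝ) else 0)
      ≤ ∑ a : V, ∑ b : V, ∑ t ∈ vals ar, ((Sf ar a b t).card : ℝ) ^ 2 :=
        sum_le_sum fun a _ => sum_le_sum fun b _ => h1 a b
    _ ≤ ∑ a : V, 6 * (Fintype.card V : ℝ) ^ 2 * Real.sqrt (Fintype.card V) :=
        sum_le_sum fun a _ => h.sum_sq_le a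
    _ = _ := by simp; ring

lemma Ar.T5 {ar : V → V → V → ℝ} (h : Ar ar) :
    (((univ : Finset (V × V × V × V × V)).filter fun x =>
      x.2.2.2.2 ∈ Sf ar x.1 x.2.2.2.1 (ar x.1 x.2.1 x.2.2.1)).card : ℝ) ≤
      3 * (Fintype.card V : ℝ) ^ 4 * Real.sqrt (Fintype.card V) := by
  rw [← Finset.sum_boole]
  simp_rw [Fintype.sum_prod_type]
  calc ∑ a : V, ∑ b : V, ∑ c : V, ∑ d : V, ∑ e : V,
      (if e ∈ Sf ar a d (ar a b c) then (1:ℝ) else 0)
      = ∑ a : V, ∑ b : V, ∑ c : V, ∑ d : V, ((Sf ar a d (ar a b c)).card : ℝ) := by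
        refine sum_congr rfl fun a _ => sum_congr rfl fun b _ => sum_congr rfl fun c _ =>
          sum_congr rfl fun d _ => ?_
        simp
    _ ≤ ∑ a : V, ∑ b : V, ∑ c : V, 3 * (Fintype.card V : ℝ) * Real.sqrt (Fintype.card V) :=
        sum_le_sum fun a _ => sum_le_sum fun b _ => sum_le_sum fun c _ => h.sum_le a _
    _ = _ := by simp; ring

lemma Ar.T6 {ar : V → V → V → ℝ} (h : Ar ar) :
    (((univ : Finset (V × V × V × V × V × V)).filter fun x =>
      x.2.2.2.2.2 ∈ Sf ar x.2.2.2.1 x.2.2.2.2.1 (ar x.1 x.2.1 x.2.2.1)).card : ℝ) ≤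
      3 * (Fintype.card V : ℝ) ^ 5 * Real.sqrt (Fintype.card V) := by
  rw [← Finset.sum_boole]
  simp_rw [Fintype.sum_prod_type]
  calc ∑ a : V, ∑ b : V, ∑ c : V, ∑ d : V, ∑ e : V, ∑ f : V,
      (if f ∈ Sf ar d e (ar a b c) then (1:ℝ) else 0)
      = ∑ a : V, ∑ b : V, ∑ c : V, ∑ d : V, ∑ e : V, ((Sf ar d e (ar a b c)).card : ℝ) := by
        refine sum_congr rfl fun a _ => sum_congr rfl fun b _ => sum_congr rfl fun c _ =>
          sum_congr rfl fun d _ => sum_congr rfl fun e _ => ?_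
        simp
    _ ≤ ∑ a : V, ∑ b : V, ∑ c : V, ∑ d : V,
          3 * (Fintype.card V : ℝ) * Real.sqrt (Fintype.card V) :=
        sum_le_sum fun a _ => sum_le_sum fun b _ => sum_le_sum fun c _ =>
          sum_le_sum fun d _ => h.sum_le d _
    _ = _ := by simp; ring

/-- The sets that must be destroyed. -/
noncomputable def B4 (ar : V → V → V → ℝ) : Finset (Finset V) :=
  (((univ : Finset (V × V × V × V)).filter fun x =>
      x.2.2.1 ∈ Sf ar x.1 x.2.1 (ar x.1 x.2.1 x.2.2.1) ∧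
      x.2.2.2 ∈ Sf ar x.1 x.2.1 (ar x.1 x.2.1 x.2.2.1)).image fun x =>
      {x.1, x.2.1, x.2.2.1, x.2.2.2}).filter fun A => A.card = 4

noncomputable def B5 (ar : V → V → V → ℝ) : Finset (Finset V) :=
  (((univ : Finset (V × V × V × V × V)).filter fun x =>
      x.2.2.2.2 ∈ Sf ar x.1 x.2.2.2.1 (ar x.1 x.2.1 x.2.2.1)).image fun x =>
      {x.1, x.2.1, x.2.2.1, x.2.2.2.1, x.2.2.2.2}).filter fun A => A.card = 5

noncomputable def B6 (ar : V → V → V → ℝ) : Finset (Finset V) :=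
  (((univ : Finset (V × V × V × V × V × V)).filter fun x =>
      x.2.2.2.2.2 ∈ Sf ar x.2.2.2.1 x.2.2.2.2.1 (ar x.1 x.2.1 x.2.2.1)).image fun x =>
      {x.1, x.2.1, x.2.2.1, x.2.2.2.1, x.2.2.2.2.1, x.2.2.2.2.2}).filter fun A => A.card = 6

lemma Ar.B4_card {ar : V → V → V → ℝ} (h : Ar ar) :
    ((B4 ar).card : ℝ) ≤ 6 * (Fintype.card V : ℝ) ^ 3 * Real.sqrt (Fintype.card V) := by
  refine le_trans ?_ h.T4
  exact_mod_cast (card_filter_le _ _).trans card_image_le

lemma Ar.B5_card {ar : V → V → V → ℝ} (h : Ar ar) :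
    ((B5 ar).card : ℝ) ≤ 3 * (Fintype.card V : ℝ) ^ 4 * Real.sqrt (Fintype.card V) := by
  refine le_trans ?_ h.T5
  exact_mod_cast (card_filter_le _ _).trans card_image_le

lemma Ar.B6_card {ar : V → V → V → ℝ} (h : Ar ar) :
    ((B6 ar).card : ℝ) ≤ 3 * (Fintype.card V : ℝ) ^ 5 * Real.sqrt (Fintype.card V) := by
  refine le_trans ?_ h.T6
  exact_mod_cast (card_filter_le _ _).trans card_image_le

end Pool.Agent.H29.Areas
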