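import Mathlib

/-!
# Triangle areas in line arrangements: definitions
-/

namespace Pool.Agent.H29.Areas

/-- A line of the plane. -/
def IsLine (ℓ : Set (ℝ × ℝ)) : Prop :=
  ∃ a b c : ℝ, (a ≠ 0 ∨ b ≠ 0) ∧ ℓ = {p | a * p.1 + b * p.2 = c}

/-- A generic arrangement of lines: any two of the lines meet, no three of them pass through a
common point. -/
def Generic (L : Finset (Set (ℝ × ℝ))) : Prop :=
  (∀ ℓ ∈ L, IsLine ℓ) ∧
  (∀ ℓ ∈ L, ∀ m ∈ L, ℓ ≠ m → (ℓ ∩ m).Nonempty) ∧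
  (∀ ℓ ∈ L, ∀ m ∈ L, ∀ k ∈ L, ℓ ≠ m → m ≠ k → ℓ ≠ k → ℓ ∩ m ∩ k = ∅)

/-- The area of the triangle with vertices `P`, `Q`, `R`. -/
noncomputable def triArea (P Q R : ℝ × ℝ) : ℝ :=
  |(Q.1 - P.1) * (R.2 - P.2) - (R.1 - P.1) * (Q.2 - P.2)| / 2

/-- The lines `ℓ`, `m`, `k` bound a triangle of area `t`: its vertices are the intersection
points of the lines. -/
def HasArea (ℓ m k : Set (ℝ × ℝ)) (t : ℝ) : Prop :=
  ∃ P Q R : ℝ × ℝ, P ∈ m ∩ k ∧ Q ∈ k ∩ ℓ ∧ R ∈ ℓ ∩ m ∧ triArea P Q R = t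

/-- The triangles bounded by the triples of lines of `S` have pairwise different areas: two
triples of (distinct) lines of `S` with the same area are the same triple. -/
def DistinctAreas (S : Finset (Set (ℝ × ℝ))) : Prop :=
  ∀ ℓ ∈ S, ∀ m ∈ S, ∀ k ∈ S, ∀ ℓ' ∈ S, ∀ m' ∈ S, ∀ k' ∈ S,
    ℓ ≠ m → m ≠ k → ℓ ≠ k → ℓ' ≠ m' → m' ≠ k' → ℓ' ≠ k' →
    ∀ t : ℝ, HasArea ℓ m k t → HasArea ℓ' m' k' t →
      ({ℓ, m, k} : Set (Set (ℝ × ℝ))) = {ℓ', m', k'}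

/-- The integers `k` such that every generic arrangement of `n` lines contains a subfamily of
`k` lines with distinct areas; `D'(n)` is the greatest of them. -/
def DSet (n : ℕ) : Set ℕ :=
  {k | ∀ L : Finset (Set (ℝ × ℝ)), Generic L → L.card = n →
    ∃ S ⊆ L, S.card = k ∧ DistinctAreas S}

end Pool.Agent.H29.Areas
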