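import Pool.Agent.H29.Areas.Select

/-!
# Triangle areas of lines `y = m x + k`
-/

namespace Pool.Agent.H29.Areas

open Finset

/-- A quadratic equation has at most two solutions. -/
lemma quad_card {α β γ : ℝ} (h : α ≠ 0 ∨ β ≠ 0) (X : Finset ℝ)
    (hX : ∀ x ∈ X, α * x ^ 2 + β * x + γ = 0) : X.card ≤ 2 := by
  by_contra hcon
  push Not at hcon
  obtain ⟨x, hx, y, hy, z, hz, hxy, hxz, hyz⟩ := two_lt_card.1 hcon
  have e1 := hX x hx
  have e2 := hX y hy
  have e3 := hX z hz
  have f1 : (x - y) * (α * (x + y) + β) = 0 := by linear_combination e1 - e2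
  have f2 : (x - z) * (α * (x + z) + β) = 0 := by linear_combination e1 - e3
  have g1 : α * (x + y) + β = 0 := (mul_eq_zero.1 f1).resolve_left (sub_ne_zero.2 hxy)
  have g2 : α * (x + z) + β = 0 := (mul_eq_zero.1 f2).resolve_left (sub_ne_zero.2 hxz)
  have g3 : (y - z) * α = 0 := by linear_combination g1 - g2
  have hα : α = 0 := (mul_eq_zero.1 g3).resolve_left (sub_ne_zero.2 hyz)
  have hβ : β = 0 := by rw [hα] at g1; linarith
  rcases h with h | h
  · exact h hα
  · exact h hβ

variable {V : Type*}

/-- The concurrency determinant of the lines `y = m x + k`. -/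
def Dt (m k : V → ℝ) (a b c : V) : ℝ :=
  k a * (m b - m c) + k b * (m c - m a) + k c * (m a - m b)

/-- The area of the triangle bounded by three lines `y = m x + k`. -/
noncomputable def arf (m k : V → ℝ) (a b c : V) : ℝ :=
  (Dt m k a b c) ^ 2 / (2 * |(m a - m b) * (m b - m c) * (m c - m a)|)

lemma arf_s12 (m k : V → ℝ) (a b c : V) : arf m k a b c = arf m k b a c := by
  rw [arf, arf]
  have h1 : Dt m k b a c = - Dt m k a b c := by rw [Dt, Dt]; ring
  have h2 : (m b - m a) * (m a - m c) * (m c - m b) = -((m a - m b) * (m b - m c) * (m c - m a)) := by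
    ring
  rw [h1, h2, abs_neg, neg_sq]

lemma arf_s23 (m k : V → ℝ) (a b c : V) : arf m k a b c = arf m k a c b := by
  rw [arf, arf]
  have h1 : Dt m k a c b = - Dt m k a b c := by rw [Dt, Dt]; ring
  have h2 : (m a - m c) * (m c - m b) * (m b - m a) = -((m a - m b) * (m b - m c) * (m c - m a)) := by
    ring
  rw [h1, h2, abs_neg, neg_sq]

/-- The first coordinate of the intersection with the line `a`. -/
noncomputable def xx (m k : V → ℝ) (a v : V) : ℝ := - (k v - k a) / (m v - m a)

/-- The inverse relative slope. -/
noncomputable def ss (m : V → ℝ) (a v : V) : ℝ := 1 / (m v - m a)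

lemma xx_sub {m k : V → ℝ} {a b c : V} (hb : m b ≠ m a) (hc : m c ≠ m a) :
    (xx m k a b - xx m k a c) * ((m b - m a) * (m c - m a)) = - Dt m k a b c := by
  have h1 : m b - m a ≠ 0 := sub_ne_zero.2 hb
  have h2 : m c - m a ≠ 0 := sub_ne_zero.2 hc
  rw [xx, xx, Dt]
  field_simp
  ring

lemma arf_eq {m k : V → ℝ} {a b c : V} (hb : m b ≠ m a) (hc : m c ≠ m a) (hbc : m b ≠ m c) :
    arf m k a b c = (xx m k a b - xx m k a c) ^ 2 / (2 * |ss m a b - ss m a c|) := by
  have h1 : m b - m a ≠ 0 := sub_ne_zero.2 hb
  have h2 : m c - m a ≠ 0 := sub_ne_zero.2 hc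
  have h3 : m c - m b ≠ 0 := sub_ne_zero.2 (Ne.symm hbc)
  have hx := xx_sub (k := k) hb hc
  have hs : ss m a b - ss m a c = (m c - m b) / ((m b - m a) * (m c - m a)) := by
    rw [ss, ss]
    field_simp
    ring
  have hD : Dt m k a b c = - ((xx m k a b - xx m k a c) * ((m b - m a) * (m c - m a))) := by
    rw [hx]; ring
  rw [arf, hD, hs, abs_div]
  have h4 : |(m a - m b) * (m b - m c) * (m c - m a)| =
      |(m b - m a) * (m c - m a)| * |m c - m b| := by
    rw [← abs_mul]
    congr 1
    ring
  rw [h4]
  have h5 : |(m b - m a) * (m c - m a)| ≠ 0 := abs_ne_zero.2 (mul_ne_zero h1 h2)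
  have h6 : |m c - m b| ≠ 0 := abs_ne_zero.2 h3
  have h7 : ((m b - m a) * (m c - m a)) ^ 2 = |(m b - m a) * (m c - m a)| ^ 2 := (sq_abs _).symm
  rw [neg_sq, mul_pow, h7]
  field_simp

variable [Fintype V] [DecidableEq V]

/-- The area function of a generic family of lines has small codegrees. -/
theorem ar_arf {m k : V → ℝ} (hm : Function.Injective m)
    (hD : ∀ a b c : V, a ≠ b → b ≠ c → a ≠ c → Dt m k a b c ≠ 0) : Ar (arf m k) where
  s12 := arf_s12 m k
  s23 := arf_s23 m k
  cod := by
    intro a b b' t t' hab hab' hor
    by_cases hbb : b = b'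
    · have htt : t ≠ t' := by
        rcases hor with h | h
        · exact absurd hbb h
        · exact h
      subst hbb
      rw [filter_eq_empty_iff.2]
      · simp
      · rintro c _ ⟨-, -, -, h1, h2⟩
        exact htt (h1.symm.trans h2)
    · have hx : xx m k a b ≠ xx m k a b' := by
        intro h0
        have := xx_sub (k := k) (hm.ne hab.symm) (hm.ne hab'.symm)
        rw [h0, sub_self, zero_mul] at this
        exact hD a b b' hab hbb hab' (by linarith)
      set F := univ.filter fun c => c ≠ a ∧ c ≠ b ∧ c ≠ b' ∧ arf m k a b c = t ∧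
        arf m k a b' c = t' with hF
      set G : ℝ → ℝ → Finset V := fun ε ε' => F.filter fun c =>
        ss m a c = ss m a b - ε * (xx m k a b - xx m k a c) ^ 2 / (2 * t) ∧
        ss m a c = ss m a b' - ε' * (xx m k a b' - xx m k a c) ^ 2 / (2 * t') with hG
      have hpos : ∀ b c, a ≠ b → c ≠ a → c ≠ b → 0 < arf m k a b c := by
        intro b c h1 h2 h3
        rw [arf]
        have e1 := hD a b c h1 h3.symm h2.symm
        have e2 : (m a - m b) * (m b - m c) * (m c - m a) ≠ 0 :=
          mul_ne_zero (mul_ne_zero (sub_ne_zero.2 (hm.ne h1)) (sub_ne_zero.2 (hm.ne h3.symm)))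
            (sub_ne_zero.2 (hm.ne h2))
        have := abs_pos.2 e2
        positivity
      have hsol : ∀ b c t, a ≠ b → c ≠ a → c ≠ b → arf m k a b c = t →
          ss m a c = ss m a b - 1 * (xx m k a b - xx m k a c) ^ 2 / (2 * t) ∨
          ss m a c = ss m a b - (-1) * (xx m k a b - xx m k a c) ^ 2 / (2 * t) := by
        intro b c t h1 h2 h3 h4
        have htp : 0 < t := by rw [← h4]; exact hpos b c h1 h2 h3
        rw [arf_eq (hm.ne h1.symm) (hm.ne h2) (hm.ne h3.symm)] at h4
        have hs : ss m a b - ss m a c ≠ 0 := by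
          intro h0
          rw [h0] at h4
          simp at h4
          linarith
        have h5 : |ss m a b - ss m a c| = (xx m k a b - xx m k a c) ^ 2 / (2 * t) := by
          have h6 : |ss m a b - ss m a c| ≠ 0 := abs_ne_zero.2 hs
          rw [← h4]
          have h7 : xx m k a b - xx m k a c ≠ 0 := by
            intro h0
            rw [h0] at h4
            simp at h4
            linarith
          field_simp
        rcases abs_choice (ss m a b - ss m a c) with h8 | h8
        · left
          rw [one_mul, ← h5, h8]; ring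
        · right
          rw [mul_div_assoc, ← h5, h8]; ring
      have hcover : F ⊆ (G 1 1 ∪ G 1 (-1)) ∪ (G (-1) 1 ∪ G (-1) (-1)) := by
        intro c hc
        have hc' := hc
        rw [hF, mem_filter] at hc'
        obtain ⟨-, h1, h2, h3, h4, h5⟩ := hc'
        have s1 := hsol b c t hab h1 h2 h4
        have s2 := hsol b' c t' hab' h1 h3 h5
        simp only [hG, mem_union, mem_filter]
        rcases s1 with s1 | s1 <;> rcases s2 with s2 | s2
        · left; left; exact ⟨hc, s1, s2⟩
        · left; right; exact ⟨hc, s1, s2⟩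
        · right; left; exact ⟨hc, s1, s2⟩
        · right; right; exact ⟨hc, s1, s2⟩
      have hGc : ∀ ε ε' : ℝ, (ε = 1 ∨ ε = -1) → (G ε ε').card ≤ 2 := by
        intro ε ε' hε
        rcases (G ε ε').eq_empty_or_nonempty with he | ⟨c0, hc0⟩
        · rw [he]; simp
        · have hc0' := hc0
          rw [hG] at hc0'
          simp only [hF, mem_filter, mem_univ, true_and] at hc0'
          obtain ⟨⟨h1, h2, h3, h4, h5⟩, -⟩ := hc0'
          have htp : 0 < t := by rw [← h4]; exact hpos b c0 hab h1 h2
          have htp' : 0 < t' := by rw [← h5]; exact hpos b' c0 hab' h1 h3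
          have hinj : Set.InjOn (xx m k a) (G ε ε') := by
            intro c hc c' hc' hcc
            rw [mem_coe, hG] at hc hc'
            simp only [hF, mem_filter, mem_univ, true_and] at hc hc'
            by_contra hne
            have := xx_sub (k := k) (hm.ne hc.1.1) (hm.ne hc'.1.1)
            rw [hcc, sub_self, zero_mul] at this
            exact hD a c c' hc.1.1.symm hne hc'.1.1.symm (by linarith)
          rw [← card_image_of_injOn hinj]
          refine quad_card (α := -ε / (2 * t) + ε' / (2 * t'))
            (β := ε * xx m k a b / t - ε' * xx m k a b' / t')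
            (γ := ss m a b - ss m a b' - ε * (xx m k a b) ^ 2 / (2 * t) +
              ε' * (xx m k a b') ^ 2 / (2 * t')) ?_ _ ?_
          · by_contra hcon
            push Not at hcon
            obtain ⟨e1, e2⟩ := hcon
            have e3 : ε' / t' = ε / t := by
              have : ε' / (2 * t') = ε / (2 * t) := by
                have e4 : -ε / (2 * t) = - (ε / (2 * t)) := by ring
                linarith
              have q1 : ε' / t' = 2 * (ε' / (2 * t')) := by field_simp
              have q2 : ε / t = 2 * (ε / (2 * t)) := by field_simp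
              rw [q1, q2, this]
            have e5 : (ε / t) * (xx m k a b - xx m k a b') = 0 := by
              have q1 : ε * xx m k a b / t = (ε / t) * xx m k a b := by ring
              have q2 : ε' * xx m k a b' / t' = (ε' / t') * xx m k a b' := by ring
              rw [q1, q2, e3] at e2
              linarith
            rcases mul_eq_zero.1 e5 with e6 | e6
            · rcases hε with rfl | rfl
              · have : (1:ℝ) / t > 0 := by positivity
                linarith
              · have : (1:ℝ) / t > 0 := by positivity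
                have e7 : (-1:ℝ) / t = - (1 / t) := by ring
                linarith
            · exact hx (sub_eq_zero.1 e6)
          · intro X hX
            obtain ⟨c, hc, rfl⟩ := mem_image.1 hX
            rw [hG] at hc
            simp only [mem_filter] at hc
            obtain ⟨-, e1, e2⟩ := hc
            have e3 := e1.symm.trans e2
            have q1 : (-ε / (2 * t) + ε' / (2 * t')) * xx m k a c ^ 2 +
                (ε * xx m k a b / t - ε' * xx m k a b' / t') * xx m k a c +
                (ss m a b - ss m a b' - ε * (xx m k a b) ^ 2 / (2 * t) +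
                  ε' * (xx m k a b') ^ 2 / (2 * t')) =
                (ss m a b - ε * (xx m k a b - xx m k a c) ^ 2 / (2 * t)) -
                (ss m a b' - ε' * (xx m k a b' - xx m k a c) ^ 2 / (2 * t')) := by
              field_simp
              ring
            rw [q1, e3, sub_self]
      calc F.card ≤ ((G 1 1 ∪ G 1 (-1)) ∪ (G (-1) 1 ∪ G (-1) (-1))).card := card_le_card hcover
        _ ≤ (G 1 1 ∪ G 1 (-1)).card + (G (-1) 1 ∪ G (-1) (-1)).card := card_union_le _ _
        _ ≤ ((G 1 1).card + (G 1 (-1)).card) + ((G (-1) 1).card + (G (-1) (-1)).card) :=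
            add_le_add (card_union_le _ _) (card_union_le _ _)
        _ ≤ 8 := by
            have a1 := hGc 1 1 (Or.inl rfl)
            have a2 := hGc 1 (-1) (Or.inl rfl)
            have a3 := hGc (-1) 1 (Or.inr rfl)
            have a4 := hGc (-1) (-1) (Or.inr rfl)
            omega

end Pool.Agent.H29.Areas
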