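import Pool.Agent.H29.Areas.Geo
import Pool.Agent.H29.Areas.Defs

/-!
# The lower bound for `D'(n)`
-/

namespace Pool.Agent.H29.Areas

open Finset

/-- The line `y = m x + k`. -/
def ln (m k : ℝ) : Set (ℝ × ℝ) := {p | p.2 = m * p.1 + k}

lemma triArea_ln {V : Type*} {m k : V → ℝ} {a b c : V} (hab : m a ≠ m b) (hbc : m b ≠ m c)
    (hca : m c ≠ m a) {P Q R : ℝ × ℝ} (hP : P ∈ ln (m b) (k b) ∩ ln (m c) (k c))
    (hQ : Q ∈ ln (m c) (k c) ∩ ln (m a) (k a)) (hR : R ∈ ln (m a) (k a) ∩ ln (m b) (k b)) :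
    triArea P Q R = arf m k a b c := by
  have hA : m a - m b ≠ 0 := sub_ne_zero.2 hab
  have hB : m b - m c ≠ 0 := sub_ne_zero.2 hbc
  have hC : m c - m a ≠ 0 := sub_ne_zero.2 hca
  obtain ⟨P1, P2⟩ := P
  obtain ⟨Q1, Q2⟩ := Q
  obtain ⟨R1, R2⟩ := R
  simp only [ln, Set.mem_inter_iff, Set.mem_setOf_eq] at hP hQ hR
  obtain ⟨p1, p2⟩ := hP
  obtain ⟨q1, q2⟩ := hQ
  obtain ⟨r1, r2⟩ := hR
  have hP1 : P1 = (k c - k b) / (m b - m c) := by
    rw [eq_div_iff hB]; linear_combination p2 - p1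
  have hQ1 : Q1 = (k a - k c) / (m c - m a) := by
    rw [eq_div_iff hC]; linear_combination q2 - q1
  have hR1 : R1 = (k b - k a) / (m a - m b) := by
    rw [eq_div_iff hA]; linear_combination r2 - r1
  have hE : (Q1 - P1) * (R2 - P2) - (R1 - P1) * (Q2 - P2) =
      (Q1 - P1) * (R1 - P1) * (m b - m c) := by
    have e1 : R2 - P2 = m b * (R1 - P1) := by linear_combination r2 - p1
    have e2 : Q2 - P2 = m c * (Q1 - P1) := by linear_combination q1 - p2
    rw [e1, e2]; ring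
  have h1 : Q1 - P1 = Dt m k a b c / ((m b - m c) * (m c - m a)) := by
    rw [hP1, hQ1, Dt]
    field_simp
    ring
  have h2 : R1 - P1 = - Dt m k a b c / ((m a - m b) * (m b - m c)) := by
    rw [hP1, hR1, Dt]
    field_simp
    ring
  rw [triArea, arf]
  simp only
  rw [hE, h1, h2]
  have h3 : Dt m k a b c / ((m b - m c) * (m c - m a)) *
      (-Dt m k a b c / ((m a - m b) * (m b - m c))) * (m b - m c) =
      - ((Dt m k a b c) ^ 2 / ((m a - m b) * (m b - m c) * (m c - m a))) := by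
    field_simp
  rw [h3, abs_neg, abs_div, abs_of_nonneg (sq_nonneg (Dt m k a b c))]
  have h4 : |(m a - m b) * (m b - m c) * (m c - m a)| ≠ 0 :=
    abs_ne_zero.2 (mul_ne_zero (mul_ne_zero hA hB) hC)
  field_simp

/-- The lower bound in one arrangement. -/
theorem lower {L : Finset (Set (ℝ × ℝ))} (hL : Generic L) (hn : 2 ≤ L.card) :
    ∃ S ⊆ L, (L.card : ℝ) ^ (1 / 10 : ℝ) / 9 ≤ S.card ∧ DistinctAreas S := by
  classical
  obtain ⟨hl, h2, h3⟩ := hL
  set nv := L.filter (fun ℓ => ∃ m k : ℝ, ℓ = ln m k) with hnv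
  have hvert : (L.filter (fun ℓ => ¬ ∃ m k : ℝ, ℓ = ln m k)).card ≤ 1 := by
    rw [card_le_one]
    have hform : ∀ ℓ ∈ L.filter (fun ℓ => ¬ ∃ m k : ℝ, ℓ = ln m k),
        ∃ x : ℝ, ℓ = {p | p.1 = x} := by
      intro ℓ hℓ
      rw [mem_filter] at hℓ
      obtain ⟨a, b, c, hab, rfl⟩ := hl ℓ hℓ.1
      have hb : b = 0 := by
        by_contra hb
        refine hℓ.2 ⟨-a / b, c / b, ?_⟩
        ext p
        simp only [ln, Set.mem_setOf_eq]
        constructor
        · intro h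
          field_simp
          linarith
        · intro h
          rw [h]
          field_simp
          ring
      subst hb
      have ha : a ≠ 0 := by
        rcases hab with h | h
        · exact h
        · exact absurd rfl h
      refine ⟨c / a, ?_⟩
      ext p
      simp only [Set.mem_setOf_eq]
      rw [eq_div_iff ha]
      constructor
      · intro h; linarith
      · intro h; linarith
    intro ℓ hℓ ℓ' hℓ'
    by_contra hne
    obtain ⟨x, hx⟩ := hform ℓ hℓ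
    obtain ⟨x', hx'⟩ := hform ℓ' hℓ'
    obtain ⟨p, hp1, hp2⟩ := h2 ℓ (mem_filter.1 hℓ).1 ℓ' (mem_filter.1 hℓ').1 hne
    rw [hx] at hp1
    rw [hx'] at hp2
    apply hne
    rw [hx, hx']
    simp only [Set.mem_setOf_eq] at hp1 hp2
    rw [← hp1, ← hp2]
  have hcard : nv.card + (L.filter (fun ℓ => ¬ ∃ m k : ℝ, ℓ = ln m k)).card = L.card :=
    card_filter_add_card_filter_not _
  have hnvL : ∀ ℓ ∈ nv, ℓ ∈ L := fun ℓ h => (mem_filter.1 h).1
  have hex : ∀ v : {ℓ // ℓ ∈ nv}, ∃ m k : ℝ, v.1 = ln m k := fun v => (mem_filter.1 v.2).2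
  choose m k hmk using hex
  have hm : Function.Injective m := by
    intro u v huv
    by_contra hne
    obtain ⟨p, hp1, hp2⟩ := h2 u.1 (hnvL _ u.2) v.1 (hnvL _ v.2) (fun h => hne (Subtype.ext h))
    rw [hmk u, ln, Set.mem_setOf_eq] at hp1
    rw [hmk v, ln, Set.mem_setOf_eq] at hp2
    apply hne
    apply Subtype.ext
    rw [hmk u, hmk v, huv]
    have : k u = k v := by rw [huv] at hp1; linarith
    rw [this]
  have hD : ∀ a b c : {ℓ // ℓ ∈ nv}, a ≠ b → b ≠ c → a ≠ c → Dt m k a b c ≠ 0 := by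
    intro a b c hab hbc hac h0
    obtain ⟨p, hp1, hp2⟩ := h2 a.1 (hnvL _ a.2) b.1 (hnvL _ b.2) (fun h => hab (Subtype.ext h))
    have hp1' := hp1
    have hp2' := hp2
    rw [hmk a, ln, Set.mem_setOf_eq] at hp1'
    rw [hmk b, ln, Set.mem_setOf_eq] at hp2'
    have h5 : p ∈ a.1 ∩ b.1 ∩ c.1 := by
      refine ⟨⟨hp1, hp2⟩, ?_⟩
      rw [hmk c, ln, Set.mem_setOf_eq]
      have h6 : (m a - m b) * (p.2 - (m c * p.1 + k c)) = 0 := by
        rw [Dt] at h0
        linear_combination (m c - m b) * hp1' + (m a - m c) * hp2' - h0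
      have h7 := (mul_eq_zero.1 h6).resolve_left (sub_ne_zero.2 (hm.ne hab))
      linarith
    rw [h3 a.1 (hnvL _ a.2) b.1 (hnvL _ b.2) c.1 (hnvL _ c.2) (fun h => hab (Subtype.ext h))
      (fun h => hbc (Subtype.ext h)) (fun h => hac (Subtype.ext h))] at h5
    exact h5
  have hcV : Fintype.card {ℓ // ℓ ∈ nv} = nv.card := Fintype.card_coe nv
  obtain ⟨S, hS1, hS2⟩ := (ar_arf hm hD).exists_set (by rw [hcV]; omega)
  refine ⟨S.map ⟨Subtype.val, Subtype.val_injective⟩, ?_, ?_, ?_⟩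
  · intro ℓ hℓ
    rw [mem_map] at hℓ
    obtain ⟨v, -, rfl⟩ := hℓ
    exact hnvL _ v.2
  · rw [card_map]
    refine le_trans ?_ hS1
    rw [hcV]
    have h1 : (L.card : ℝ) / 2 ≤ nv.card := by
      have h4 : L.card ≤ 2 * nv.card := by omega
      have : (L.card : ℝ) ≤ 2 * nv.card := by exact_mod_cast h4
      linarith
    have h4 : ((L.card : ℝ) / 2) ^ (1 / 10 : ℝ) ≤ (nv.card : ℝ) ^ (1 / 10 : ℝ) :=
      Real.rpow_le_rpow (by positivity) h1 (by norm_num)
    rw [Real.div_rpow (by positivity) (by norm_num)] at h4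
    have h5 : (2:ℝ) ^ (1 / 10 : ℝ) ≤ 9 / 8 := by
      rw [show (9 / 8 : ℝ) = ((9 / 8 : ℝ) ^ (10 : ℝ)) ^ (1 / 10 : ℝ) by
        rw [← Real.rpow_mul (by norm_num)]; norm_num]
      refine Real.rpow_le_rpow (by norm_num) ?_ (by norm_num)
      rw [show (10 : ℝ) = ((10 : ℕ) : ℝ) by norm_num, Real.rpow_natCast]
      norm_num
    have h6 : 0 < (2:ℝ) ^ (1 / 10 : ℝ) := by positivity
    have h7 : (L.card : ℝ) ^ (1 / 10 : ℝ) ≤ (9 / 8) * (nv.card : ℝ) ^ (1 / 10 : ℝ) := by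
      rw [div_le_iff₀ h6] at h4
      have h8 : 0 ≤ (nv.card : ℝ) ^ (1 / 10 : ℝ) := by positivity
      nlinarith
    linarith
  · intro ℓ1 g1 ℓ2 g2 ℓ3 g3 ℓ4 g4 ℓ5 g5 ℓ6 g6 n12 n23 n13 n45 n56 n46 t ht ht'
    rw [mem_map] at g1 g2 g3 g4 g5 g6
    obtain ⟨a, ha, rfl⟩ := g1
    obtain ⟨b, hb, rfl⟩ := g2
    obtain ⟨c, hc, rfl⟩ := g3
    obtain ⟨d, hd, rfl⟩ := g4
    obtain ⟨e, he, rfl⟩ := g5
    obtain ⟨f, hf, rfl⟩ := g6
    simp only [Function.Embedding.coeFn_mk] at *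
    have key : ∀ a b c : {ℓ // ℓ ∈ nv}, a ≠ b → b ≠ c → a ≠ c → HasArea a.1 b.1 c.1 t →
        arf m k a b c = t := by
      rintro a b c hab hbc hac ⟨P, Q, R, hP, hQ, hR, hpqr⟩
      rw [← hpqr]
      rw [hmk a, hmk b] at hR
      rw [hmk b, hmk c] at hP
      rw [hmk c, hmk a] at hQ
      exact (triArea_ln (hm.ne hab) (hm.ne hbc) (hm.ne hac.symm) hP hQ hR).symm
    have nab : a ≠ b := fun h => n12 (by rw [h])
    have nbc : b ≠ c := fun h => n23 (by rw [h])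
    have nac : a ≠ c := fun h => n13 (by rw [h])
    have nde : d ≠ e := fun h => n45 (by rw [h])
    have nef : e ≠ f := fun h => n56 (by rw [h])
    have ndf : d ≠ f := fun h => n46 (by rw [h])
    have h1 := key a b c nab nbc nac ht
    have h4 := key d e f nde nef ndf ht'
    have h5 := hS2 a ha b hb c hc d hd e he f hf nab nac nbc nde ndf nef (h1.trans h4.symm)
    have h6 : (({a, b, c} : Finset {ℓ // ℓ ∈ nv}) : Set {ℓ // ℓ ∈ nv}) =
        (({d, e, f} : Finset {ℓ // ℓ ∈ nv}) : Set {ℓ // ℓ ∈ nv}) := by rw [h5]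
    have h7 := congrArg (fun s => Subtype.val '' s) h6
    simpa [Set.image_insert_eq] using h7

end Pool.Agent.H29.Areas
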