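import Pool.Agent.H29.Areas.Count

/-!
# A large set with distinct values
-/

namespace Pool.Agent.H29.Areas

open Finset

variable {V : Type*} [Fintype V] [DecidableEq V]

lemma Ar.congr {ar : V → V → V → ℝ} (h : Ar ar) {a b c a' b' c' : V}
    (hab : a' ≠ b') (hac : a' ≠ c') (hbc : b' ≠ c')
    (he : ({a', b', c'} : Finset V) = {a, b, c}) : ar a b c = ar a' b' c' := by
  have ha : a' = a ∨ a' = b ∨ a' = c := by
    have : a' ∈ ({a, b, c} : Finset V) := by rw [← he]; simp
    simpa using this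
  have hb : b' = a ∨ b' = b ∨ b' = c := by
    have : b' ∈ ({a, b, c} : Finset V) := by rw [← he]; simp
    simpa using this
  have hc : c' = a ∨ c' = b ∨ c' = c := by
    have : c' ∈ ({a, b, c} : Finset V) := by rw [← he]; simp
    simpa using this
  have h12 := h.s12
  have h23 := h.s23
  rcases ha with rfl | rfl | rfl <;> rcases hb with rfl | rfl | rfl <;>
    rcases hc with rfl | rfl | rfl <;> first
    | exact absurd rfl hab
    | exact absurd rfl hac
    | exact absurd rfl hbc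
    | rfl
    | exact h12 _ _ _
    | exact h23 _ _ _
    | exact (h12 _ _ _).trans (h23 _ _ _)
    | exact (h23 _ _ _).trans (h12 _ _ _)
    | exact ((h12 _ _ _).trans (h23 _ _ _)).trans (h12 _ _ _)

/-- No bad set inside `S`: the values are distinct. -/
lemma Ar.distinct {ar : V → V → V → ℝ} (h : Ar ar) (S : Finset V)
    (h4 : ∀ A ∈ B4 ar, ¬ A ⊆ S) (h5 : ∀ A ∈ B5 ar, ¬ A ⊆ S) (h6 : ∀ A ∈ B6 ar, ¬ A ⊆ S)
    {a b c d e f : V} (ha : a ∈ S) (hb : b ∈ S) (hc : c ∈ S) (hd : d ∈ S) (he : e ∈ S)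
    (hf : f ∈ S) (hab : a ≠ b) (hac : a ≠ c) (hbc : b ≠ c) (hde : d ≠ e) (hdf : d ≠ f)
    (hef : e ≠ f) (heq : ar a b c = ar d e f) : ({a, b, c} : Finset V) = {d, e, f} := by
  classical
  set X : Finset V := {a, b, c} with hX
  set Y : Finset V := {d, e, f} with hY
  have hXc : X.card = 3 := card_eq_three.2 ⟨a, b, c, hab, hac, hbc, rfl⟩
  have hYc : Y.card = 3 := card_eq_three.2 ⟨d, e, f, hde, hdf, hef, rfl⟩
  have hXS : X ⊆ S := by
    intro v hv
    rw [hX] at hv
    simp only [mem_insert, mem_singleton] at hv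
    rcases hv with rfl | rfl | rfl <;> assumption
  have hYS : Y ⊆ S := by
    intro v hv
    rw [hY] at hv
    simp only [mem_insert, mem_singleton] at hv
    rcases hv with rfl | rfl | rfl <;> assumption
  by_contra hne
  have hXY : (X ∩ Y).card ≤ 2 := by
    by_contra hcon
    have h1 := card_le_card (inter_subset_left (s₁ := X) (s₂ := Y))
    have h2 : X ∩ Y = X := eq_of_subset_of_card_le inter_subset_left (by omega)
    have h3 : X ∩ Y = Y := eq_of_subset_of_card_le inter_subset_right (by omega)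
    exact hne (h2.symm.trans h3)
  have hXd : (X \ Y).card + (X ∩ Y).card = 3 := by rw [card_sdiff_add_card_inter, hXc]
  have hYd : (Y \ X).card + (X ∩ Y).card = 3 := by
    rw [inter_comm, card_sdiff_add_card_inter, hYc]
  have hU : (X ∪ Y).card + (X ∩ Y).card = 6 := by
    rw [card_union_add_card_inter, hXc, hYc]
  have hUS : X ∪ Y ⊆ S := union_subset hXS hYS
  have hXu : (X ∩ Y) ∪ (X \ Y) = X := by
    ext v; simp only [mem_union, mem_inter, mem_sdiff]; tauto
  have hYu : (X ∩ Y) ∪ (Y \ X) = Y := by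
    ext v; simp only [mem_union, mem_inter, mem_sdiff]; tauto
  have hUu : (X ∩ Y) ∪ ((X \ Y) ∪ (Y \ X)) = X ∪ Y := by
    ext v; simp only [mem_union, mem_inter, mem_sdiff]; tauto
  obtain h0 | h1 | h2 : (X ∩ Y).card = 0 ∨ (X ∩ Y).card = 1 ∨ (X ∩ Y).card = 2 := by omega
  · -- disjoint triples
    refine h6 (X ∪ Y) ?_ hUS
    rw [B6, mem_filter]
    refine ⟨?_, by omega⟩
    rw [mem_image]
    refine ⟨(a, b, c, d, e, f), ?_, ?_⟩
    · simp only [mem_filter, mem_univ, true_and, mem_Sf]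
      exact ⟨hde, hdf.symm, hef.symm, heq.symm⟩
    · rw [hX, hY]
      ext v; simp only [mem_insert, mem_singleton, mem_union]; tauto
  · -- one common element
    obtain ⟨p, hp⟩ := card_eq_one.1 h1
    obtain ⟨q, r, hqr, hq⟩ := card_eq_two.1 (show (X \ Y).card = 2 by omega)
    obtain ⟨s, u, hsu, hs⟩ := card_eq_two.1 (show (Y \ X).card = 2 by omega)
    have hpq : p ≠ q := by
      rintro rfl
      have h1 : p ∈ X ∩ Y := by rw [hp]; simp
      have h2 : p ∈ X \ Y := by rw [hq]; simp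
      exact (mem_sdiff.1 h2).2 (mem_inter.1 h1).2
    have hpr : p ≠ r := by
      rintro rfl
      have h1 : p ∈ X ∩ Y := by rw [hp]; simp
      have h2 : p ∈ X \ Y := by rw [hq]; simp
      exact (mem_sdiff.1 h2).2 (mem_inter.1 h1).2
    have hps : p ≠ s := by
      rintro rfl
      have h1 : p ∈ X ∩ Y := by rw [hp]; simp
      have h2 : p ∈ Y \ X := by rw [hs]; simp
      exact (mem_sdiff.1 h2).2 (mem_inter.1 h1).1
    have hpu : p ≠ u := by
      rintro rfl
      have h1 : p ∈ X ∩ Y := by rw [hp]; simp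
      have h2 : p ∈ Y \ X := by rw [hs]; simp
      exact (mem_sdiff.1 h2).2 (mem_inter.1 h1).1
    have e1 : ar a b c = ar p q r := by
      refine h.congr hpq hpr hqr ?_
      rw [← hX, ← hXu, hp, hq]
      rfl
    have e2 : ar d e f = ar p s u := by
      refine h.congr hps hpu hsu ?_
      rw [← hY, ← hYu, hp, hs]
      rfl
    refine h5 (X ∪ Y) ?_ hUS
    rw [B5, mem_filter]
    refine ⟨?_, by omega⟩
    rw [mem_image]
    refine ⟨(p, q, r, s, u), ?_, ?_⟩
    · simp only [mem_filter, mem_univ, true_and, mem_Sf]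
      exact ⟨hps, hpu.symm, hsu.symm, by rw [← e1, ← e2]; exact heq.symm⟩
    · rw [← hUu, hp, hq, hs]
      ext v; simp only [mem_insert, mem_singleton, mem_union]; tauto
  · -- two common elements
    obtain ⟨p, q, hpq, hp⟩ := card_eq_two.1 h2
    obtain ⟨r, hr⟩ := card_eq_one.1 (show (X \ Y).card = 1 by omega)
    obtain ⟨s, hs⟩ := card_eq_one.1 (show (Y \ X).card = 1 by omega)
    have hrX : ∀ x ∈ X ∩ Y, x ≠ r := by
      rintro x hx rfl
      have h2 : x ∈ X \ Y := by rw [hr]; simp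
      exact (mem_sdiff.1 h2).2 (mem_inter.1 hx).2
    have hsX : ∀ x ∈ X ∩ Y, x ≠ s := by
      rintro x hx rfl
      have h2 : x ∈ Y \ X := by rw [hs]; simp
      exact (mem_sdiff.1 h2).2 (mem_inter.1 hx).1
    have hpI : p ∈ X ∩ Y := by rw [hp]; simp
    have hqI : q ∈ X ∩ Y := by rw [hp]; simp
    have e1 : ar a b c = ar p q r := by
      refine h.congr hpq (hrX p hpI) (hrX q hqI) ?_
      rw [← hX, ← hXu, hp, hr]
      ext v; simp only [mem_insert, mem_singleton, mem_union]; tauto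
    have e2 : ar d e f = ar p q s := by
      refine h.congr hpq (hsX p hpI) (hsX q hqI) ?_
      rw [← hY, ← hYu, hp, hs]
      ext v; simp only [mem_insert, mem_singleton, mem_union]; tauto
    refine h4 (X ∪ Y) ?_ hUS
    rw [B4, mem_filter]
    refine ⟨?_, by omega⟩
    rw [mem_image]
    refine ⟨(p, q, r, s), ?_, ?_⟩
    · simp only [mem_filter, mem_univ, true_and, mem_Sf]
      exact ⟨⟨hpq, (hrX p hpI).symm, (hrX q hqI).symm, trivial⟩, hpq, (hsX p hpI).symm,
        (hsX q hqI).symm, by rw [← e1, ← e2]; exact heq.symm⟩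
    · rw [← hUu, hp, hr, hs]
      ext v; simp only [mem_insert, mem_singleton, mem_union]; tauto

/-- A set of size `N ^ (1/10) / 8` with distinct values. -/
theorem Ar.exists_set {ar : V → V → V → ℝ} (h : Ar ar) (hN : 1 ≤ Fintype.card V) :
    ∃ S : Finset V, (Fintype.card V : ℝ) ^ (1 / 10 : ℝ) / 8 ≤ S.card ∧
      ∀ a ∈ S, ∀ b ∈ S, ∀ c ∈ S, ∀ d ∈ S, ∀ e ∈ S, ∀ f ∈ S,
        a ≠ b → a ≠ c → b ≠ c → d ≠ e → d ≠ f → e ≠ f → ar a b c = ar d e f →
        ({a, b, c} : Finset V) = {d, e, f} := by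
  classical
  set N : ℝ := (Fintype.card V : ℝ) with hNdef
  have hN1 : 1 ≤ N := by rw [hNdef]; exact_mod_cast hN
  set x : ℝ := N ^ (1 / 10 : ℝ) with hx
  have hx1 : 1 ≤ x := Real.one_le_rpow hN1 (by norm_num)
  have hx10 : x ^ 10 = N := by
    rw [hx, ← Real.rpow_natCast, ← Real.rpow_mul (by linarith)]
    norm_num
  have hsq : Real.sqrt N = x ^ 5 := by
    rw [← hx10, show x ^ 10 = (x ^ 5) ^ 2 by ring]
    exact Real.sqrt_sq (by positivity)
  set M : ℕ := ⌈3 * x ^ 9⌉₊ with hM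
  have hx9 : 1 ≤ x ^ 9 := one_le_pow₀ hx1
  have hM1 : 3 * x ^ 9 ≤ M := Nat.le_ceil _
  have hM2 : (M : ℝ) ≤ 4 * x ^ 9 := by
    have := Nat.ceil_lt_add_one (show 0 ≤ 3 * x ^ 9 by positivity)
    rw [← hM] at this
    linarith
  have hMpos : (0:ℝ) < M := by linarith
  have : NeZero M := ⟨by intro h0; rw [h0] at hMpos; simp at hMpos⟩
  have hsum : ∑ A ∈ B4 ar ∪ B5 ar ∪ B6 ar, (1 / (M : ℝ)) ^ A.card ≤ N / (2 * M) := by
    have h0 : ∀ A : Finset V, 0 ≤ (1 / (M : ℝ)) ^ A.card := fun A => by positivity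
    have hu : ∑ A ∈ B4 ar ∪ B5 ar ∪ B6 ar, (1 / (M : ℝ)) ^ A.card ≤
        ∑ A ∈ B4 ar, (1 / (M : ℝ)) ^ A.card + ∑ A ∈ B5 ar, (1 / (M : ℝ)) ^ A.card +
        ∑ A ∈ B6 ar, (1 / (M : ℝ)) ^ A.card := by
      have e1 := sum_union_inter (s₁ := B4 ar ∪ B5 ar) (s₂ := B6 ar)
        (f := fun A : Finset V => (1 / (M : ℝ)) ^ A.card)
      have e2 := sum_union_inter (s₁ := B4 ar) (s₂ := B5 ar)
        (f := fun A : Finset V => (1 / (M : ℝ)) ^ A.card)
      have p1 : 0 ≤ ∑ A ∈ (B4 ar ∪ B5 ar) ∩ B6 ar, (1 / (M : ℝ)) ^ A.card :=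
        sum_nonneg fun A _ => h0 A
      have p2 : 0 ≤ ∑ A ∈ B4 ar ∩ B5 ar, (1 / (M : ℝ)) ^ A.card :=
        sum_nonneg fun A _ => h0 A
      linarith
    have c4 : ∑ A ∈ B4 ar, (1 / (M : ℝ)) ^ A.card = ((B4 ar).card : ℝ) * (1 / (M : ℝ)) ^ 4 := by
      rw [← nsmul_eq_mul, ← sum_const]
      refine sum_congr rfl fun A hA => ?_
      rw [B4, mem_filter] at hA
      rw [hA.2]
    have c5 : ∑ A ∈ B5 ar, (1 / (M : ℝ)) ^ A.card = ((B5 ar).card : ℝ) * (1 / (M : ℝ)) ^ 5 := by
      rw [← nsmul_eq_mul, ← sum_const]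
      refine sum_congr rfl fun A hA => ?_
      rw [B5, mem_filter] at hA
      rw [hA.2]
    have c6 : ∑ A ∈ B6 ar, (1 / (M : ℝ)) ^ A.card = ((B6 ar).card : ℝ) * (1 / (M : ℝ)) ^ 6 := by
      rw [← nsmul_eq_mul, ← sum_const]
      refine sum_congr rfl fun A hA => ?_
      rw [B6, mem_filter] at hA
      rw [hA.2]
    have b4 := h.B4_card
    have b5 := h.B5_card
    have b6 := h.B6_card
    rw [← hNdef, hsq, ← hx10] at b4 b5 b6
    refine hu.trans ?_
    rw [c4, c5, c6]
    set y : ℝ := 1 / (M : ℝ) with hy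
    have hy0 : 0 < y := by positivity
    have hyM : y * M = 1 := by rw [hy]; field_simp
    have hyx : y * x ^ 9 ≤ 1 / 3 := by
      have : y * (3 * x ^ 9) ≤ y * M := mul_le_mul_of_nonneg_left hM1 hy0.le
      linarith
    have hfin : N / (2 * M) = N * y / 2 := by rw [hy]; field_simp
    rw [hfin]
    have hyx0 : 0 < y * x ^ 9 := by positivity
    have t4 : ((B4 ar).card : ℝ) * y ^ 4 ≤ 6 / 27 * (x ^ 10 * y) := by
      calc ((B4 ar).card : ℝ) * y ^ 4 ≤ (6 * (x ^ 10) ^ 3 * x ^ 5) * y ^ 4 :=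
            mul_le_mul_of_nonneg_right b4 (by positivity)
        _ = 6 * (y * x ^ 9) ^ 3 * (x ^ 8 * y) := by ring
        _ ≤ 6 * (1 / 3) ^ 3 * (x ^ 10 * y) := by
            apply mul_le_mul
            · exact mul_le_mul_of_nonneg_left (pow_le_pow_left₀ hyx0.le hyx 3) (by norm_num)
            · exact mul_le_mul_of_nonneg_right (pow_le_pow_right₀ hx1 (by norm_num)) hy0.le
            · positivity
            · positivity
        _ = _ := by ring
    have t5 : ((B5 ar).card : ℝ) * y ^ 5 ≤ 3 / 81 * (x ^ 10 * y) := by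
      calc ((B5 ar).card : ℝ) * y ^ 5 ≤ (3 * (x ^ 10) ^ 4 * x ^ 5) * y ^ 5 :=
            mul_le_mul_of_nonneg_right b5 (by positivity)
        _ = 3 * (y * x ^ 9) ^ 4 * (x ^ 9 * y) := by ring
        _ ≤ 3 * (1 / 3) ^ 4 * (x ^ 10 * y) := by
            apply mul_le_mul
            · exact mul_le_mul_of_nonneg_left (pow_le_pow_left₀ hyx0.le hyx 4) (by norm_num)
            · exact mul_le_mul_of_nonneg_right (pow_le_pow_right₀ hx1 (by norm_num)) hy0.le
            · positivity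
            · positivity
        _ = _ := by ring
    have t6 : ((B6 ar).card : ℝ) * y ^ 6 ≤ 3 / 243 * (x ^ 10 * y) := by
      calc ((B6 ar).card : ℝ) * y ^ 6 ≤ (3 * (x ^ 10) ^ 5 * x ^ 5) * y ^ 6 :=
            mul_le_mul_of_nonneg_right b6 (by positivity)
        _ = 3 * (y * x ^ 9) ^ 5 * (x ^ 10 * y) := by ring
        _ ≤ 3 * (1 / 3) ^ 5 * (x ^ 10 * y) := by
            apply mul_le_mul
            · exact mul_le_mul_of_nonneg_left (pow_le_pow_left₀ hyx0.le hyx 5) (by norm_num)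
            · exact le_rfl
            · positivity
            · positivity
        _ = _ := by ring
    have hpos : 0 < x ^ 10 * y := by positivity
    rw [← hx10]
    linarith
  have hne : ∀ A ∈ B4 ar ∪ B5 ar ∪ B6 ar, A.Nonempty := by
    intro A hA
    rw [← card_pos]
    simp only [mem_union, B4, B5, B6, mem_filter] at hA
    rcases hA with (hA | hA) | hA <;> omega
  obtain ⟨S, hS1, hS2⟩ := deletion M (B4 ar ∪ B5 ar ∪ B6 ar) hne hsum
  refine ⟨S, ?_, ?_⟩
  · refine le_trans ?_ hS1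
    rw [← hNdef, ← hx10, div_le_div_iff₀ (by norm_num) (by positivity)]
    have : x * (2 * M) ≤ x * (2 * (4 * x ^ 9)) :=
      mul_le_mul_of_nonneg_left (by linarith) (by linarith)
    nlinarith
  · intro a ha b hb c hc d hd e he f hf hab hac hbc hde hdf hef heq
    exact h.distinct S (fun A hA => hS2 A (by simp [hA])) (fun A hA => hS2 A (by simp [hA]))
      (fun A hA => hS2 A (by simp [hA])) ha hb hc hd he hf hab hac hbc hde hdf hef heq

end Pool.Agent.H29.Areas
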