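import Pool.Agent.H29.Areas.Defs

/-!
# The upper bound for `D'(n)`: tangents of a parabola
-/

namespace Pool.Agent.H29.Areas

open Finset

/-- The tangents of the parabola `y = x ^ 2` at the integer points. -/
def tg (i : ℕ) : Set (ℝ × ℝ) := {p | -(2 * (i : ℝ)) * p.1 + 1 * p.2 = -(i : ℝ) ^ 2}

lemma tg_inj : Function.Injective tg := by
  intro i j hij
  have h1 : ((0 : ℝ), -(i : ℝ) ^ 2) ∈ tg i := by
    show -(2 * (i : ℝ)) * 0 + 1 * (-(i : ℝ) ^ 2) = -(i : ℝ) ^ 2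
    ring
  rw [hij] at h1
  have h2 : -(2 * (j : ℝ)) * 0 + 1 * (-(i : ℝ) ^ 2) = -(j : ℝ) ^ 2 := h1
  have h3 : (i : ℝ) ^ 2 = (j : ℝ) ^ 2 := by linarith
  have h4 : (i : ℝ) = j := by
    exact (pow_left_inj₀ (Nat.cast_nonneg i) (Nat.cast_nonneg j) two_ne_zero).1 h3
  exact_mod_cast h4

lemma mem_tg_pt (i j : ℕ) : (((i : ℝ) + j) / 2, (i : ℝ) * j) ∈ tg i ∩ tg j := by
  constructor
  · show -(2 * (i : ℝ)) * (((i : ℝ) + j) / 2) + 1 * ((i : ℝ) * j) = -(i : ℝ) ^ 2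
    ring
  · show -(2 * (j : ℝ)) * (((i : ℝ) + j) / 2) + 1 * ((i : ℝ) * j) = -(j : ℝ) ^ 2
    ring

lemma tg_x {i j : ℕ} (hij : i ≠ j) {p : ℝ × ℝ} (hp : p ∈ tg i ∩ tg j) :
    p.1 = ((i : ℝ) + j) / 2 := by
  have h1 : -(2 * (i : ℝ)) * p.1 + 1 * p.2 = -(i : ℝ) ^ 2 := hp.1
  have h2 : -(2 * (j : ℝ)) * p.1 + 1 * p.2 = -(j : ℝ) ^ 2 := hp.2
  have h3 : ((i : ℝ) - j) * (2 * p.1 - (i + j)) = 0 := by linear_combination h2 - h1
  have h4 : (i : ℝ) - j ≠ 0 := sub_ne_zero.2 (by exact_mod_cast hij)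
  have h5 := (mul_eq_zero.1 h3).resolve_left h4
  linarith

lemma tg_generic (n : ℕ) : Generic ((Icc 1 n).image tg) := by
  refine ⟨?_, ?_, ?_⟩
  · intro ℓ hℓ
    obtain ⟨i, -, rfl⟩ := mem_image.1 hℓ
    exact ⟨-(2 * (i : ℝ)), 1, -(i : ℝ) ^ 2, Or.inr one_ne_zero, rfl⟩
  · intro ℓ hℓ m hm _
    obtain ⟨i, -, rfl⟩ := mem_image.1 hℓ
    obtain ⟨j, -, rfl⟩ := mem_image.1 hm
    exact ⟨_, mem_tg_pt i j⟩
  · intro ℓ hℓ m hm k hk h1 h2 h3
    obtain ⟨i, -, rfl⟩ := mem_image.1 hℓ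
    obtain ⟨j, -, rfl⟩ := mem_image.1 hm
    obtain ⟨l, -, rfl⟩ := mem_image.1 hk
    rw [Set.eq_empty_iff_forall_notMem]
    rintro p ⟨⟨p1, p2⟩, p3⟩
    have e1 := tg_x (fun h => h1 (by rw [h])) ⟨p1, p2⟩
    have e2 := tg_x (fun h => h2 (by rw [h])) ⟨p2, p3⟩
    apply h3
    have : (i : ℝ) = l := by linarith
    have : i = l := by exact_mod_cast this
    rw [this]

lemma tg_area (i j l : ℕ) : HasArea (tg i) (tg j) (tg l)
    (|((i : ℝ) - j) * ((j : ℝ) - l) * ((l : ℝ) - i)| / 4) := by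
  refine ⟨_, _, _, mem_tg_pt j l, mem_tg_pt l i, mem_tg_pt i j, ?_⟩
  rw [triArea]
  simp only
  have h : (((l : ℝ) + i) / 2 - ((j : ℝ) + l) / 2) * ((i : ℝ) * j - (j : ℝ) * l) -
      (((i : ℝ) + j) / 2 - ((j : ℝ) + l) / 2) * ((l : ℝ) * i - (j : ℝ) * l) =
      (((i : ℝ) - j) * ((j : ℝ) - l) * ((l : ℝ) - i)) / 2 * (-1) := by ring
  rw [h, abs_mul, abs_div, abs_neg, abs_one, abs_of_pos (show (0:ℝ) < 2 by norm_num)]
  ring

lemma sidon {S : Finset (Set (ℝ × ℝ))} (hS : DistinctAreas S) {i i' j' j : ℕ}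
    (h1 : i < i') (h2 : i' < j') (h3 : j' < j) (hs : i + j = i' + j')
    (hi : tg i ∈ S) (hi' : tg i' ∈ S) (hj' : tg j' ∈ S) (hj : tg j ∈ S) : False := by
  have ne : ∀ {a b : ℕ}, a ≠ b → tg a ≠ tg b := fun h => tg_inj.ne h
  have hs' : (i : ℝ) + j = i' + j' := by exact_mod_cast hs
  have a1 := tg_area i i' j
  have a2 := tg_area i j' j
  have e : |((i : ℝ) - i') * ((i' : ℝ) - j) * ((j : ℝ) - i)| / 4 =
      |((i : ℝ) - j') * ((j' : ℝ) - j) * ((j : ℝ) - i)| / 4 := by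
    have e1 : (i : ℝ) - i' = j' - j := by linarith
    have e2 : (i' : ℝ) - j = i - j' := by linarith
    rw [e1, e2]
    congr 2
    ring
  rw [← e] at a2
  have h := hS _ hi _ hi' _ hj _ hi _ hj' _ hj (ne (by omega)) (ne (by omega)) (ne (by omega))
    (ne (by omega)) (ne (by omega)) (ne (by omega)) _ a1 a2
  have h4 : tg i' ∈ ({tg i, tg j', tg j} : Set (Set (ℝ × ℝ))) := by
    rw [← h]; simp
  simp only [Set.mem_insert_iff, Set.mem_singleton_iff] at h4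
  rcases h4 with h4 | h4 | h4
  · exact ne (show i' ≠ i by omega) h4
  · exact ne (show i' ≠ j' by omega) h4
  · exact ne (show i' ≠ j by omega) h4

/-- Every subfamily with distinct areas of the tangents of the parabola is small. -/
theorem upper {n : ℕ} {S : Finset (Set (ℝ × ℝ))} (hS : S ⊆ (Icc 1 n).image tg)
    (hd : DistinctAreas S) : (S.card : ℝ) ≤ 2 * Real.sqrt n + 1 := by
  classical
  set T := (Icc 1 n).filter (fun i => tg i ∈ S) with hT
  have hST : S = T.image tg := by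
    ext ℓ
    constructor
    · intro h
      obtain ⟨i, hi, rfl⟩ := mem_image.1 (hS h)
      exact mem_image_of_mem _ (mem_filter.2 ⟨hi, h⟩)
    · intro h
      obtain ⟨i, hi, rfl⟩ := mem_image.1 h
      exact (mem_filter.1 hi).2
  have hc : S.card = T.card := by rw [hST, card_image_of_injective _ tg_inj]
  have hmem : ∀ i ∈ T, 1 ≤ i ∧ i ≤ n ∧ tg i ∈ S := by
    intro i hi
    rw [hT, mem_filter, mem_Icc] at hi
    exact ⟨hi.1.1, hi.1.2, hi.2⟩
  have hinj : Set.InjOn (fun p : ℕ × ℕ => (p.1 + p.2, decide (p.1 < p.2))) T.offDiag := by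
    have key : ∀ i ∈ T, ∀ j ∈ T, ∀ i' ∈ T, ∀ j' ∈ T, i < j → i' < j' → i + j = i' + j' →
        i = i' ∧ j = j' := by
      intro i hi j hj i' hi' j' hj' h1 h2 h3
      rcases lt_trichotomy i i' with h | h | h
      · exact (sidon hd h h2 (by omega) h3 (hmem i hi).2.2 (hmem i' hi').2.2 (hmem j' hj').2.2
          (hmem j hj).2.2).elim
      · exact ⟨h, by omega⟩
      · exact (sidon hd h h1 (by omega) h3.symm (hmem i' hi').2.2 (hmem i hi).2.2 (hmem j hj).2.2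
          (hmem j' hj').2.2).elim
    rintro ⟨i, j⟩ hp ⟨i', j'⟩ hp' heq
    rw [mem_coe, mem_offDiag] at hp hp'
    simp only [Prod.mk.injEq, decide_eq_decide] at heq hp hp'
    obtain ⟨e1, e2⟩ := heq
    by_cases h : i < j
    · have := key i hp.1 j hp.2.1 i' hp'.1 j' hp'.2.1 h (e2.1 h) e1
      exact Prod.ext this.1 this.2
    · have h' : ¬ i' < j' := fun h' => h (e2.2 h')
      have := key j hp.2.1 i hp.1 j' hp'.2.1 i' hp'.1 (by have := hp.2.2; omega)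
        (by have := hp'.2.2; omega) (by omega)
      exact Prod.ext this.2 this.1
  have hmaps : ∀ p ∈ T.offDiag, (fun p : ℕ × ℕ => (p.1 + p.2, decide (p.1 < p.2))) p ∈
      (Icc 2 (2 * n)) ×ˢ (univ : Finset Bool) := by
    rintro ⟨i, j⟩ hp
    rw [mem_offDiag] at hp
    have a1 := hmem i hp.1
    have a2 := hmem j hp.2.1
    rw [mem_product, mem_Icc]
    exact ⟨⟨by simp only; omega, by simp only; omega⟩, mem_univ _⟩
  have hle := card_le_card_of_injOn _ hmaps hinj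
  rw [offDiag_card, card_product, Nat.card_Icc, card_univ, Fintype.card_bool] at hle
  have h4 : T.card * T.card ≤ 4 * n + T.card := by
    have : T.card ≤ T.card * T.card ∨ T.card = 0 := by
      rcases Nat.eq_zero_or_pos T.card with h | h
      · right; exact h
      · left; exact Nat.le_mul_of_pos_left _ h
    omega
  rw [hc]
  have h5 : ((T.card : ℝ)) * T.card ≤ 4 * n + T.card := by exact_mod_cast h4
  have hs : Real.sqrt n * Real.sqrt n = n := Real.mul_self_sqrt (Nat.cast_nonneg n)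
  have hs0 := Real.sqrt_nonneg (n : ℝ)
  by_contra hcon
  push Not at hcon
  nlinarith

end Pool.Agent.H29.Areas
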